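import Pool.Agent.Helper45.LGB.St

/-!
# Module LGB KIL (MP_97dcad_al)
-/

set_option autoImplicit false

namespace Pool.Agent.Helper63.LGB

open Pool.Agent.Helper45.LGB

theorem hKIL (hPKU : StPKU) (hPKN : StPKN) (hLST : StLST) (hDSB : StDSB) : StKIL := by
  intro p m ι E V _ _ f Y Z W W' v r q hW hW1 hW2 hv hZ hzv hK u hu hPk w hw
  obtain ⟨us, hlen, hflat, hus⟩ := hPKN ι E r (m * q + 1) m u hPk
  obtain ⟨-, -, -, -, -, hact, -, -, -⟩ := hLST p ι V f Y
  obtain ⟨-, hmono, -, -, -⟩ := hPKU ι E
  have key : ∀ us : List (List ι), us.length ≤ m + 1 → (∀ u' ∈ us, ∀ i ∈ u', i ∈ Z) →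
      (∀ u' ∈ us, Pk E r (m * q + 1) (ltr u')) → ∀ w ∈ Mh f Y v W' us.length,
      act f us.flatten w ∈ W' := by
    intro us
    induction us with
    | nil =>
      intro _ _ _ w hw
      exact hw
    | cons u' us ih =>
      intro hl h1 h2 w hw
      have hl' : us.length ≤ m := by
        simp only [List.length_cons] at hl
        omega
      rw [List.flatten_cons, hact]
      refine ih (by omega) (fun a ha => h1 a (List.mem_cons_of_mem _ ha))
        (fun a ha => h2 a (List.mem_cons_of_mem _ ha)) _ ?_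
      have hmem : u' ∈ u' :: us := List.mem_cons_self
      refine hDSB p ι E V f Y Z W W' v r q hW hW1 hW2 hv hZ hzv hK us.length u' (h1 u' hmem) ?_ w hw
      refine hmono r (m * q + 1) (us.length * q + 1) _ _ (h2 u' hmem) ?_ (le_refl _)
      exact Nat.add_le_add_right (Nat.mul_le_mul_right q hl') 1
  rw [hflat]
  refine key us hlen.le ?_ hus w ?_
  · intro u' hu' i hi
    apply hu
    rw [hflat, List.mem_flatten]
    exact ⟨u', hu', hi⟩
  · rw [hlen]
    exact hw

end Pool.Agent.Helper63.LGB
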